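import Pool.Agent.H57.BG.Phb
import Pool.Agent.H93.BX.Blx

/-!
# [H93 BY BLG] THE BOX LEMMA BLG

* `rlk_x`, `rox_x`: the data with separators. `blg_of`: `BLG` from `GPC`. `blg`: BLG for all fields with enough roots of unity, all primes.
-/

set_option autoImplicit false

open scoped NumberField
open IsDedekindDomain
open scoped Classical

noncomputable section

namespace H93.BY

open H63.MA H38.ML H38.BB H38.BG H57.PC H57.BRA H77.WD H77.WE H77.GL H57.AN H35.UB H24.RK H57.GP H62.BL H93.BX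

section sep

variable {K : Type} [Field K] [NumberField K] {Ω : Type} [Field Ω] [Algebra K Ω]
  {p : ℕ} {ζ : K} {D : RD0 K p ζ} {q n : ℕ} {J P Qg Lm : Type} [Group P] [Group Qg] [MulAction Qg Lm]
  {A : GS D Ω} {Q : DP K Ω}

theorem rlk_x {y : Wy D A J} {B : H77.S3.SD D Q A} {jb : Fin A.g → J} {l : List (Pl K)} (h : Rlk y B jb l)
    (F : Finset Gal(Ω/K)) : Rlk (yx y F) B (fun i => (Sum.inl (jb i) : J ⊕ F)) l where
  inj := Sum.inl_injective.comp h.inj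
  sj := h.sj
  nd := h.nd
  mem := h.mem
  rl := h.rl
  loc := h.loc

theorem rox_x {r : Rd A J P Qg} {y : Wy D A J} {B : H77.S3.SD D Q A} {jb : Fin A.g → J}
    {Dx : LGx q n P Qg Lm} (hr : ROx r y B jb Dx) (F : Finset Gal(Ω/K)) :
    ROx (rx r F) (yx y F) B (fun i => (Sum.inl (jb i) : J ⊕ F)) Dx where
  sub := hr.sub
  one := hr.one
  hon := hr.hon
  sur := hr.sur
  lab := hr.lab
  al := hr.al
  G := hr.G
  H j x := by
    rcases j with j | σ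
    · exact hr.H j x
    · exact le_of_eq norm_one
  Gz := hr.Gz
  Hz := hr.Hz
  Hn j hj u hu x := by
    rcases j with j | σ
    · exact hr.Hn j (fun i hi => hj i (congrArg Sum.inl hi)) u hu x
    · rfl

end sep

section core

variable {K : Type} [Field K] [NumberField K] {Ω : Type} [Field Ω] [Algebra K Ω] [IsAlgClosure K Ω]
  {p : ℕ} {ζ : K} {D : RD0 K p ζ} {Q : DP K Ω}

/-- BLG from the black box `GPC` -/
theorem blg_of (hp : p.Prime) (hζ : IsPrimitiveRoot ζ p) {κ m N : ℕ} {z : K} (hκ : 1 ≤ κ)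
    (hz : IsPrimitiveRoot z (p ^ (N + 1))) (hzζ : z ^ p ^ N = ζ)
    (hN : 2 * κ + Mx (p ^ κ) m + 3 ≤ N) (hG : H62.BM.GPC D Ω (p ^ κ) (Mx (p ^ κ) m ^ (2 ^ m))) (A : GS D Ω)
    (B : H77.S3.SD D Q A) (c : ℕ) : BLG D Ω Q A B κ m c N z := by
  intro C₁ A₁ C' ε hε
  have hne : NeZero (p ^ κ) := ⟨pow_ne_zero κ hp.ne_zero⟩
  obtain ⟨k, hk⟩ : ∃ k, κ = k + 1 := ⟨κ - 1, by omega⟩
  have hp2 : MOne p K := H51.PF.mone_of hp (by omega) hz
  obtain ⟨L₁⟩ := exists_LDs Ω hp hζ D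
  obtain ⟨F, hF⟩ := H77.WD.sep hp hp2 hζ D L₁ Q (Mx (p ^ κ) m)
  obtain ⟨Y₂, hY₂⟩ := H62.BM.cel_pow (Mx (p ^ κ) m) C₁ (c + F.card + (m + 1))
  obtain ⟨Y₁, hY₁⟩ := H62.BM.cbl (b := Mx (p ^ κ) m ^ (2 ^ m)) hζ ⟨hp, k, by rw [hk]⟩ hG m C₁ A₁ C'
    (Mx (p ^ κ) m * C₁ + 1) ε hε
  refine ⟨max 3 (max Y₁ Y₂), le_max_left _ _, ?_⟩
  intro Y hY J _ y jb l hJ hval hM hrl hnl hgl hout Z₀ hZ₀ hall n P Qg Lm _ _ _ _ _ Dx v hnm hP hL hpP hv hl
    ι I r h lo hi hR hh hlh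
  have hY1 : Y₁ ≤ Y := (le_max_left _ _).trans ((le_max_right _ _).trans hY)
  have hY2 : Y₂ ≤ Y := (le_max_right _ _).trans ((le_max_right _ _).trans hY)
  have hm1 : 1 ≤ m := by omega
  have hFQ : Finite Qg := Finite.of_surjective Dx.D.pi Dx.D.sur
  have hQ : IsPGroup p Qg := hpP.of_surjective Dx.D.pi Dx.D.sur
  have hcQ : Nat.card Qg ≤ m := (Nat.card_le_card_of_surjective _ Dx.D.sur).trans hP
  have hP0 : Nat.card Dx.Pq ≤ m := (Nat.card_le_card_of_surjective _ Dx.pr_sur).trans hP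
  have hMx : m ≤ Mx (p ^ κ) m := mx_le m
  have hcm : Nat.card (UGm (p ^ κ) n Qg Lm) ≤ Mx (p ^ κ) m := ux_le hcQ hL hnm _ (by omega)
  have hcd : Nat.card (UGd (p ^ κ) n Qg Lm) ≤ Mx (p ^ κ) m := ux_le hcQ hL hnm _ (by omega)
  have hcr : Nat.card (H57.BG.UGr (ZMod (p ^ κ)) n Qg Lm) ≤ Mx (p ^ κ) m := ux_le hcQ hL hnm _ (by omega)
  have hfd : Finite (UGd (p ^ κ) n Qg Lm) := H93.BX.fin_ugd
  have hM1 : 1 ≤ Mx (p ^ κ) m := hm1.trans hMx
  -- the root of unity of one order less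
  obtain ⟨N', rfl⟩ : ∃ N', N = N' + 1 := ⟨N - 1, by omega⟩
  have hz' : IsPrimitiveRoot (z ^ p) (p ^ (N' + 1)) := by
    have h1 := root_le hp hz (show N' + 1 ≤ N' + 1 + 1 by omega)
    have h2 : N' + 1 + 1 - (N' + 1) = 1 := by omega
    rwa [h2, pow_one] at h1
  have hzζ' : (z ^ p) ^ p ^ N' = ζ := by rw [← pow_mul, ← pow_succ', hzζ]
  have hnl' : NL (N' + 1) (z ^ p) y.L := by
    have h1 := hnl.mono (show N' + 1 ≤ N' + 1 + 1 by omega)
    have h2 : N' + 1 + 1 - (N' + 1) = 1 := by omega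
    rwa [h2, pow_one] at h1
  have hrts : Rts p κ y.M N' (z ^ p) y.L := by
    refine ⟨hz', hzζ', hnl', ⟨hp2, H57.GP.Q.E.mone_pow hp (by omega) hz⟩, Mx (p ^ κ) m + κ + 2, by omega,
      by omega, by omega, ?_⟩
    rw [hM]
    exact (Nat.lt_pow_self hp.one_lt).le.trans (Nat.pow_le_pow_right hp.pos (by omega))
  have hyok : (yx y F).Ok Q Dx.Pq Qg Lm κ n N' (z ^ p) := {
    val := yx_val hp hζ hval F
    sep := fun H _ _ hH hc φ φ' h1 h2 h3 => hF.2 H hH (by rw [← hM]; exact hc) φ φ' h1 h2 fun δ hδ =>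
      h3 (Sum.inr ⟨δ, hδ⟩)
    rts := hrts
    out := hout
    cP := by
      change Nat.card Dx.Pq ≤ y.M
      rw [hM]
      exact hP0.trans hMx
    cQ := by
      change Nat.card Qg ≤ y.M
      rw [hM]
      exact hcQ.trans hMx
    cm := by
      change _ ≤ y.M
      rw [hM]
      exact hcm
    cd := by
      change _ ≤ y.M
      rw [hM]
      exact hcd }
  have hcard : Nat.card ((Fin (n + 1) → Bool) → UGd (p ^ κ) n Qg Lm) ≤ Mx (p ^ κ) m ^ (2 ^ m) := by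
    rw [Nat.card_fun, Nat.card_fun, Nat.card_eq_fintype_card (α := Bool), Fintype.card_bool,
      Nat.card_eq_fintype_card (α := Fin (n + 1)), Fintype.card_fin]
    calc Nat.card (UGd (p ^ κ) n Qg Lm) ^ (2 ^ (n + 1)) ≤ Mx (p ^ κ) m ^ (2 ^ (n + 1)) :=
          Nat.pow_le_pow_left hcd _
      _ ≤ Mx (p ^ κ) m ^ (2 ^ m) :=
          Nat.pow_le_pow_right hM1 (Nat.pow_le_pow_right (by norm_num) hnm)
  have hcyy : (cyy (yx y F)).Ok (p ^ κ) n Qg Lm := by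
    refine ⟨hval.v, hout, ?_⟩
    change _ ≤ y.M
    rw [hM]
    exact hcd
  have hlb : Dx.Lkb v.lam := by
    obtain ⟨τ, u, hu⟩ := hl
    refine ⟨τ, u, ?_⟩
    rw [H42.BX.kbp_br Dx (v.lam 0) τ fun i => u i • v.lam (τ i).succ]
    exact hu
  have hmain := hY₁ Y hY1 A n Qg Lm (cyy (yx y F)) (cvx Dx v) (by omega) hcyy
    (fun c => H42.BX.kbp_inv Dx (v.lam 0) (v.f 0) (hv.f 0) c) hQ hcard hgl Z₀ hZ₀ hall ι I
    (fun i => cmx (yx y F) Dx (rx (r i) F) v (h i)) lo hi (fun i hi' => ⟨cmx_ok hp hp2 hζ (yx y F) hyok hQ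
      (rox_x (hR.ok i hi') F) hv hlb (hh i hi')
      (H57.BG.phb hp hζ (yx y F) (rlk_x hrl F) hyok hQ (by
        change _ ≤ y.M
        rw [hM]
        exact hcr) (rox_x (hR.ok i hi') F) hv), ?_⟩) ⟨hR.nr, hR.card, hR.mul⟩ hlh
  · refine le_trans (le_of_eq ?_) hmain
    refine Finset.sum_congr rfl fun i _ => ?_
    refine congrArg (fun t => (nr (r i).T)⁻¹ * (∏ k, lo i k)⁻¹ * ‖t‖) (Finset.sum_congr rfl fun x _ => ?_)
    change _ = Fq (yx y F) (rx (r i) F) v x * ∏ k, h i k x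
    rw [fq_x]
  · refine hY₂ Y hY2 _ (r i).T.card ?_ (hR.card i hi')
    refine (cel_le (m := m) Dx.D0 (r0 Dx (rx (r i) F)) hP0 hL hnm).trans ?_
    refine Nat.pow_le_pow_right hM1 ?_
    rw [Fintype.card_sum, Fintype.card_coe]
    change (r i).T.card + _ ≤ _
    omega

end core

/-- order `p ^ 0`: nothing to prove -/
theorem blg_zero {K : Type} [Field K] [NumberField K] {p : ℕ} {ζ : K} (D : RD0 K p ζ) (Ω : Type) [Field Ω]
    [Algebra K Ω] (Q : DP K Ω) (A : GS D Ω) (B : H77.S3.SD D Q A) (m c N : ℕ) (z : K) :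
    BLG D Ω Q A B 0 m c N z := by
  intro C₁ A₁ C' ε hε
  refine ⟨3, le_rfl, ?_⟩
  intro Y hY J _ y jb l hJ hval hM hrl hnl hgl hout Z₀ hZ₀ hall n P Qg Lm _ _ _ _ _ Dx v hnm hP hL hpP hv hl
  exfalso
  obtain ⟨τ, u, hu⟩ := hl
  have h1 : Subsingleton (ZMod (p ^ 0)) := by
    rw [pow_zero]
    exact inferInstanceAs (Subsingleton (Fin 1))
  exact hu (Subsingleton.elim _ _)

/-- THE BOX LEMMA BLG, the number `c` of fixed words after the field -/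
theorem blg' {p : ℕ} (hp : p.Prime) (κ m : ℕ) : ∃ N₀ : ℕ, ∀ N : ℕ, N₀ ≤ N →
    ∀ (K : IntermediateField ℚ QBar) [NumberField K] (ζ : K), IsPrimitiveRoot ζ p →
    ∀ z : K, IsPrimitiveRoot z (p ^ (N + 1)) → z ^ p ^ N = ζ → ∀ (D : RD0 K p ζ) (Q : DP K QBar)
      (A : GS D QBar) (B : H77.S3.SD D Q A) (c : ℕ), BLG D QBar Q A B κ m c N z := by
  refine ⟨2 * κ + Mx (p ^ κ) m + Mx (p ^ κ) m ^ (2 ^ m) + 3, fun N hN K _ ζ hζ z hz hzζ D Q A B c => ?_⟩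
  rcases Nat.eq_zero_or_pos κ with h0 | hκ
  · subst h0
    exact blg_zero D QBar Q A B m c N z
  · exact blg_of hp hζ hκ hz hzζ (by omega) (gpcp (M := N + 1) hp hκ (by omega) hζ hz D) A B c

/-- THE BOX LEMMA BLG -/
theorem blg {p : ℕ} (hp : p.Prime) (κ m c : ℕ) : ∃ N₀ : ℕ, ∀ N : ℕ, N₀ ≤ N →
    ∀ (K : IntermediateField ℚ QBar) [NumberField K] (ζ : K), IsPrimitiveRoot ζ p →
    ∀ z : K, IsPrimitiveRoot z (p ^ (N + 1)) → z ^ p ^ N = ζ → ∀ (D : RD0 K p ζ) (Q : DP K QBar)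
      (A : GS D QBar) (B : H77.S3.SD D Q A), BLG D QBar Q A B κ m c N z := by
  obtain ⟨N₀, h⟩ := blg' hp κ m
  exact ⟨N₀, fun N hN K _ ζ hζ z hz hzζ D Q A B => h N hN K ζ hζ z hz hzζ D Q A B c⟩

end H93.BY
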