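import Pool.Agent.H93.BX.Df
import Pool.Agent.H77.S3.Def
import Pool.Agent.H1.S3.Prz

/-!
# [H93 BY DF] MP_b39724_nt, THE BOX LEMMA BLG with a crossed functional `ka` (mail helper57 39185): definitions

Number theory and words as in H93/BX/Df. Group data: `LGx q n P Qg Lm`: an ordinary `D : LG q (n + 1) P Qg Lm` (so `f (n + 3) = ⊥`; its own `ch` is not used), a crossed functional
`ka g : f (n + 2) → ℤ/q` (`ka (g g') u = ka g u + ka g' (x⁻¹ u x)`, `g = pi x`), characters `ch a` of `f (n + 1)`, trivial on `f (n + 2)`, TWISTED equivariant: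
`ch (g • a) (x y x⁻¹) = ch a y + ka g [s (g • a), x y x⁻¹]`, `g = pi x`.

* `LGx.lam`: the functional on the words of length `n + 2` with distinct indices, last index `0`. `LGx.kw l₀`: the functional on the words of length `n + 1` with distinct indices, all
  different from `0` (formulas of `LG.eps`, `LG.kw`). `LGx.kp`: its value on functions. `LGx.kb`: the functional `kw` composed with the right normed bracket (last index `1`), `LGx.kbp` its value.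
* `LGx.Lk lam`: LINKED: `kp` does not vanish on a right normed bracket (any order of the indices `1, ..., n + 1`, any conjugates of the labels).
* `VOx`: the variables: as `Vd.Ok`, eigenfunctions of `f (n + 1)` with the character `ch (lam k)`.
* `bl B v`: the letters of `S0` at the place `v`. `ztv`, `zta`: the functionals `ζ` of the fixed primes and of the letters of `S0` (`H1.S3.zeta`).
* `ROx`: the fixed part: as `Rd.Ok`, `G v (u x) = ep (ζ_v u) G v x`, `H (jb i) (u x) = ep (ζ_i u) H (jb i) x`, `H j (u x) = H j x` for the other `j`, `u ∈ f (n + 2)`.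
* `Wy.Rl`: the relation (R) for the words of `y`. `Wy.Rb`: `sj (jb i) = B.b i`.
* statement `BLG`.
-/

set_option autoImplicit false

open scoped NumberField
open IsDedekindDomain
open scoped Classical

noncomputable section

namespace H93.BY

open H63.MA H38.BB H38.BG H57.PC H57.BRA H77.WD H77.WE H77.GL H57.AN H35.UB H24.RK H62.BL H93.BX

section alg

/-- group data with a crossed functional -/
structure LGx (q n : ℕ) (P Qg Lm : Type) [Group P] [Group Qg] [MulAction Qg Lm] where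
  D : LG q (n + 1) P Qg Lm
  ka : Qg → P → ZMod q
  ka_add : ∀ g, ∀ x ∈ D.f (n + 2), ∀ y ∈ D.f (n + 2), ka g (x * y) = ka g x + ka g y
  ka_mul : ∀ (x : P) (g : Qg), ∀ u ∈ D.f (n + 2), ka (D.pi x * g) u = ka (D.pi x) u + ka g (x⁻¹ * u * x)
  ch : Lm → P → ZMod q
  ch_add : ∀ a, ∀ x ∈ D.f (n + 1), ∀ y ∈ D.f (n + 1), ch a (x * y) = ch a x + ch a y
  ch_bot : ∀ a, ∀ x ∈ D.f (n + 2), ch a x = 0
  ch_act : ∀ (x : P) a, ∀ y ∈ D.f (n + 1), ch (D.pi x • a) (x * y * x⁻¹) = ch a y +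
    ka (D.pi x) (D.s (D.pi x • a) * (x * y * x⁻¹) * (D.s (D.pi x • a))⁻¹ * (x * y * x⁻¹)⁻¹)

variable {q n : ℕ} {P Qg Lm : Type} [Group P] [Group Qg] [MulAction Qg Lm]

/-- the functional on the words of length `n + 2`, letters with distinct indices, last index `0` -/
def LGx.lam (D : LGx q n P Qg Lm) : List (Lr (Fin (n + 2)) Lm) → ZMod q
  | [] => 0
  | a :: w => if ((a :: w).map Lr.i).Nodup ∧ w.length = n + 1 ∧ (w.map Lr.i).getLast? = some 0 then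
      D.ch a.l (D.D.rw w) else 0

/-- the functional on the words of length `n + 1`, letters with distinct indices different from `0` -/
def LGx.kw (D : LGx q n P Qg Lm) (l₀ : Lm) : List (Lr (Fin (n + 2)) Lm) → ZMod q
  | [] => 0
  | a :: w => if ((a :: w).map Lr.i).Nodup ∧ w.length = n ∧ (∀ b ∈ a :: w, b.i ≠ 0) then
      (if ((a :: w).map Lr.i).getLast? = some 1 then D.ch l₀ (D.D.rw (a :: w)) else 0) +
        D.ch a.l (D.D.rw (w ++ [⟨0, l₀⟩])) else 0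

/-- the functional `kw` on functions on words -/
def LGx.kp [Fintype Lm] (D : LGx q n P Qg Lm) (l₀ : Lm) (c : List (Lr (Fin (n + 2)) Lm) → ZMod q) : ZMod q :=
  ∑ t : Fin (n + 1) → Lr (Fin (n + 2)) Lm, c (List.ofFn t) * D.kw l₀ (List.ofFn t)

/-- the functional `kw` on the right normed bracket of a word with last index `1` -/
def LGx.kb [Fintype Lm] (D : LGx q n P Qg Lm) (l₀ : Lm) (t : List (Lr (Fin (n + 2)) Lm)) : ZMod q :=
  if (t.map Lr.i).getLast? = some 1 then D.kp l₀ (br t) else 0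

/-- the functional `kb` on functions on words -/
def LGx.kbp [Fintype Lm] (D : LGx q n P Qg Lm) (l₀ : Lm) (c : List (Lr (Fin (n + 2)) Lm) → ZMod q) : ZMod q :=
  ∑ t : Fin (n + 1) → Lr (Fin (n + 2)) Lm, c (List.ofFn t) * D.kb l₀ (List.ofFn t)

/-- LINKED -/
def LGx.Lk [Fintype Lm] (D : LGx q n P Qg Lm) (lam : Fin (n + 2) → Lm) : Prop :=
  ∃ (τ : Equiv.Perm (Fin (n + 1))) (u : Fin (n + 1) → Qg), D.kp (lam 0)
    (br (List.ofFn fun i : Fin (n + 1) => (⟨(τ i).succ, u i • lam (τ i).succ⟩ : Lr (Fin (n + 2)) Lm))) ≠ 0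

/-- the variables -/
structure VOx (v : Vd n P Qg Lm) (D : LGx q n P Qg Lm) : Prop where
  g : ∀ k, v.g k * (D.D.s (v.lam k))⁻¹ ∈ D.D.f 2
  f : ∀ k, v.f k • v.lam k = v.lam k
  G : ∀ k x, ‖v.G k x‖ ≤ 1
  sup : ∀ k x, v.G k x ≠ 0 → D.D.pi x = v.f k
  eq : ∀ k, ∀ u ∈ D.D.f (n + 1), ∀ x, v.G k (u * x) = ep q (D.ch (v.lam k) u) * v.G k x

end alg

variable {K : Type} [Field K] [NumberField K] {Ω : Type} [Field Ω] [Algebra K Ω]
  {p : ℕ} {ζ : K} {D : RD0 K p ζ} {q n : ℕ} {J P Qg Lm : Type} [Group P] [Group Qg] [MulAction Qg Lm]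
  {A : GS D Ω} {Q : DP K Ω}

/-- the letters of `S0` at the place `v` -/
def bl (B : H77.S3.SD D Q A) (v : Pl K) : List (Fin A.g) := (List.finRange A.g).filter fun i => B.pl i = v

/-- `ζ` at a fixed prime -/
def ztv (Dx : LGx q n P Qg Lm) (y : Wy D A J) (phi : Gal(Ω/K) →* Qg) (v : Pl K) : P → ZMod q :=
  H1.S3.zeta Dx.ka (fun v => phi (y.L.t v)) (fun v => phi (y.Fr.F v)) [v] v

/-- `ζ` at a letter of `S0` -/
def zta (Dx : LGx q n P Qg Lm) (B : H77.S3.SD D Q A) (phi : Gal(Ω/K) →* Qg) (i : Fin A.g) : P → ZMod q :=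
  H1.S3.zeta Dx.ka (fun i => phi (A.a i)) (fun i => phi (B.b i)) (bl B (B.pl i)) i

/-- the fixed part -/
structure ROx (r : Rd A J P Qg) (y : Wy D A J) (B : H77.S3.SD D Q A) (jb : Fin A.g → J) (Dx : LGx q n P Qg Lm) :
    Prop where
  sub : r.T ⊆ y.Z
  one : ∀ v, v ∉ r.T → r.lab v = 1
  hon : Unz y.L r.T r.phi
  sur : Function.Surjective r.phi
  lab : ∀ v, r.phi (y.L.t v) = Dx.D.pi (r.lab v)
  al : ∀ i, r.phi (A.a i) = Dx.D.pi (r.al i)
  G : ∀ v x, ‖r.G v x‖ ≤ 1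
  H : ∀ j x, ‖r.H j x‖ ≤ 1
  Gz : ∀ v ∈ r.T, ∀ u ∈ Dx.D.f (n + 2), ∀ x, r.G v (u * x) = ep q (ztv Dx y r.phi v u) * r.G v x
  Hz : ∀ i, ∀ u ∈ Dx.D.f (n + 2), ∀ x, r.H (jb i) (u * x) = ep q (zta Dx B r.phi i u) * r.H (jb i) x
  Hn : ∀ j, (∀ i, j ≠ jb i) → ∀ u ∈ Dx.D.f (n + 2), ∀ x, r.H j (u * x) = r.H j x

/-- the relation (R) for the words of `y` -/
def Rl (y : Wy D A J) (B : H77.S3.SD D Q A) (jb : Fin A.g → J) (l : List (Pl K)) : Prop :=
  ∀ (H : Type) [Group H] [Finite H], IsPGroup p H → Nat.card H ≤ y.M → ∀ θ : FW A →* H,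
    (∀ v, v ∉ y.Z → θ (FreeGroup.of (Sum.inl v)) = 1) →
    (l.map fun v => H77.S3.wrd B (fun v => θ (FreeGroup.of (Sum.inl v))) (fun v => θ (y.wv v))
      (fun i => θ (FreeGroup.of (Sum.inr i))) (fun i => θ (y.wj (jb i))) v).prod = 1

/-- the hypotheses on the words; `loc`: the local relations at `S0` hold for the homomorphisms of the Galois group -/
structure Rlk (y : Wy D A J) (B : H77.S3.SD D Q A) (jb : Fin A.g → J) (l : List (Pl K)) : Prop where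
  inj : Function.Injective jb
  sj : ∀ i, y.sj (jb i) = B.b i
  nd : l.Nodup
  mem : ∀ v, v ∈ l ↔ v ∈ y.Z ∨ v ∈ D.S0
  rl : Rl y B jb l
  loc : ∀ (H : Type) [Group H] [Finite H], IsPGroup p H → Nat.card H ≤ y.M → ∀ φ : Gal(Ω/K) →* H,
    H38.ML.FT φ → ∀ v ∈ D.S0, H77.S3.blk B.pl v (fun i => φ (A.a i)) (fun i => φ (B.b i)) = 1

/-- the conditions on the family of the fixed parts -/
structure Rfx (y : Wy D A J) (B : H77.S3.SD D Q A) (jb : Fin A.g → J) (Dx : LGx q n P Qg Lm) (C₁ : ℕ) (Y : ℝ)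
    {ι : Type} (I : Finset ι) (r : ι → Rd A J P Qg) : Prop where
  ok : ∀ i ∈ I, ROx (r i) y B jb Dx
  nr : ∀ i ∈ I, nr (r i).T ≤ Y ^ C₁
  card : ∀ i ∈ I, ((r i).T.card : ℝ) ≤ C₁ * Real.log (Real.log Y)
  mul : ∀ s, ((I.filter fun i => (r i).T = s).card : ℝ) ≤ Real.log Y ^ C₁

/-- THE BOX LEMMA BLG: `p`-groups of order at most `m`, functionals with values in `ℤ/p^κ`, at most `m` labels, `n + 2 ≤ m + 1` variables, at most `c` fixed words -/
def BLG (D : RD0 K p ζ) (Ω : Type) [Field Ω] [Algebra K Ω] (Q : DP K Ω) (A : GS D Ω) (B : H77.S3.SD D Q A)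
    (κ m c N : ℕ) (z : K) : Prop :=
  ∀ (C₁ A₁ C' : ℕ) (ε : ℝ), 0 < ε → ∃ Y₀ : ℝ, 3 ≤ Y₀ ∧ ∀ Y : ℝ, Y₀ ≤ Y →
    ∀ (J : Type) [Fintype J] (y : Wy D A J) (jb : Fin A.g → J) (l : List (Pl K)), Fintype.card J ≤ c → y.Val →
      y.M = Mx (p ^ κ) m → Rlk y B jb l →
      NL (N + 1) z y.L → GLp p y.Fr (Mx (p ^ κ) m ^ (2 ^ m)) (C₁ * (3 * m + 4)) C' Y →
      (∀ v ∈ y.Z, v ∉ D.S0) → ∀ Z₀ : ℝ, Z₀ ≤ Y ^ C₁ → (∀ v, D.Gd v → (nm v : ℝ) ≤ Z₀ → v ∈ y.Z) →
    ∀ (n : ℕ) (P Qg Lm : Type) [Group P] [Group Qg] [MulAction Qg Lm] [Finite P] [Fintype Lm]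
      (Dx : LGx (p ^ κ) n P Qg Lm) (v : Vd n P Qg Lm), n + 1 ≤ m → Nat.card P ≤ m →
      Nat.card Lm ≤ m → IsPGroup p P → VOx v Dx → Dx.Lk v.lam →
    ∀ (ι : Type) (I : Finset ι) (r : ι → Rd A J P Qg) (h : ι → Fin (n + 2) → (Fin (n + 2) → Pl K) → ℂ)
      (lo hi : ι → Fin (n + 2) → ℝ), Rfx y B jb Dx C₁ Y I r → (∀ i ∈ I, Mis (h i)) →
      (∀ i ∈ I, ∀ k, Real.exp (Real.log Y ^ ε) ≤ lo i k ∧ lo i k ≤ hi i k ∧
        hi i k ≤ 2 * lo i k ∧ hi i k ≤ Z₀) →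
      ∑ i ∈ I, (nr (r i).T)⁻¹ * (∏ k, lo i k)⁻¹ *
        ‖∑ x ∈ Fintype.piFinset (fun k => BX D y.Z (r i).T (lo i k) (hi i k)),
          Fq y (r i) v x * ∏ k, h i k x‖ ≤ Real.log Y ^ (-(A₁ : ℝ))

end H93.BY
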