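import Pool.Agent.H93.BY.Df
import Pool.Agent.H93.BX.Asm

/-!
# [H93 BY QUO] the data of BLG modulo `f (n + 2)`

`LGx.D0`: the group data modulo `f (n + 2)` (`ch = 0`); `v0`, `r0`: the variables and the fixed part (with functions `0`); `v0_ok`, `r0_ok`. `thq0`: the evaluation of words modulo
`f (n + 2)`. `cel0`: two tuples in the same cell have the same values at the fixed words modulo `f (n + 2)`, at the variables modulo `f (n + 1)`.
-/

set_option autoImplicit false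

open scoped NumberField
open IsDedekindDomain
open scoped Classical

noncomputable section

namespace H93.BY

open H63.MA H38.BB H38.BG H57.PC H57.BRA H77.WD H77.WE H77.GL H57.AN H35.UB H24.RK H62.BL H93.BX

section alg

variable {q n : ℕ} {P Qg Lm : Type} [Group P] [Group Qg] [MulAction Qg Lm]

theorem fl_normal {f : ℕ → Subgroup P} (hF : Fl f) (i : ℕ) : (f i).Normal := by
  refine ⟨fun b hb a => ?_⟩
  have ha : a ∈ f 0 := by
    rw [hF.top]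
    exact Subgroup.mem_top a
  have h1 := hF.com 0 i a ha b hb
  rw [Nat.zero_add] at h1
  have h2 := (f i).mul_mem h1 hb
  rwa [inv_mul_cancel_right] at h2

theorem fl_le {f : ℕ → Subgroup P} (hF : Fl f) {i j : ℕ} (h : i ≤ j) : f j ≤ f i := by
  induction j, h using Nat.le_induction with
  | base => exact le_rfl
  | succ j _ ih => exact (hF.anti j).trans ih

instance (Dx : LGx q n P Qg Lm) : (Dx.D.f (n + 2)).Normal := fl_normal Dx.D.fl _

/-- the group modulo `f (n + 2)` -/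
abbrev LGx.Pq (Dx : LGx q n P Qg Lm) : Type := P ⧸ Dx.D.f (n + 2)

/-- the projection -/
def LGx.pr (Dx : LGx q n P Qg Lm) : P →* Dx.Pq := QuotientGroup.mk' (Dx.D.f (n + 2))

theorem LGx.pr_sur (Dx : LGx q n P Qg Lm) : Function.Surjective Dx.pr := QuotientGroup.mk'_surjective _

theorem LGx.pr_one (Dx : LGx q n P Qg Lm) (x : P) : Dx.pr x = 1 ↔ x ∈ Dx.D.f (n + 2) := by
  unfold LGx.pr
  rw [QuotientGroup.mk'_apply, QuotientGroup.eq_one_iff]

theorem LGx.pr_eq (Dx : LGx q n P Qg Lm) {x y : P} : Dx.pr x = Dx.pr y ↔ x * y⁻¹ ∈ Dx.D.f (n + 2) := by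
  rw [← Dx.pr_one, map_mul, map_inv, mul_inv_eq_one]

theorem LGx.pr_mem (Dx : LGx q n P Qg Lm) {i : ℕ} (h : i ≤ n + 2) (x : P) :
    Dx.pr x ∈ (Dx.D.f i).map Dx.pr ↔ x ∈ Dx.D.f i := by
  constructor
  · rintro ⟨y, hy, hxy⟩
    rw [Dx.pr_eq] at hxy
    have h1 := fl_le Dx.D.fl h hxy
    have h2 := (Dx.D.f i).mul_mem ((Dx.D.f i).inv_mem h1) hy
    rwa [mul_inv_rev, inv_inv, inv_mul_cancel_right] at h2
  · intro hx
    exact ⟨x, hx, rfl⟩

/-- the group data modulo `f (n + 2)` -/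
def LGx.D0 (Dx : LGx q n P Qg Lm) : LG q n Dx.Pq Qg Lm where
  f i := (Dx.D.f i).map Dx.pr
  fl := by
    refine ⟨?_, fun i => Subgroup.map_mono (Dx.D.fl.anti i), ?_⟩
    · rw [Dx.D.fl.top]
      exact Subgroup.map_top_of_surjective _ Dx.pr_sur
    · rintro i j _ ⟨a, ha, rfl⟩ _ ⟨b, hb, rfl⟩
      exact ⟨_, Dx.D.fl.com i j a ha b hb, by simp only [map_mul, map_inv]⟩
  bot := by
    rw [eq_bot_iff]
    rintro _ ⟨x, hx, rfl⟩
    rw [Subgroup.mem_bot, Dx.pr_one]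
    exact hx
  pp := by
    rintro i hi _ ⟨x, hx, rfl⟩
    exact ⟨_, Dx.D.pp i hi x hx, map_pow _ _ _⟩
  pi := QuotientGroup.lift (Dx.D.f (n + 2)) Dx.D.pi fun x hx =>
    (Dx.D.ker x).2 (fl_le Dx.D.fl (by omega : 1 ≤ n + 2) hx)
  sur := by
    intro g
    obtain ⟨x, hx⟩ := Dx.D.sur g
    exact ⟨Dx.pr x, hx⟩
  ker := by
    intro x
    obtain ⟨x, rfl⟩ := Dx.pr_sur x
    rw [Dx.pr_mem (by omega : 1 ≤ n + 2), ← Dx.D.ker]
    rfl
  s a := Dx.pr (Dx.D.s a)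
  s_mem a := ⟨_, Dx.D.s_mem a, rfl⟩
  s_act := by
    intro x a
    obtain ⟨x, rfl⟩ := Dx.pr_sur x
    exact ⟨_, Dx.D.s_act x a, by simp only [map_mul, map_inv]; rfl⟩
  ch := fun _ _ => 0
  ch_add := by
    intros
    rw [add_zero]
  ch_act := by
    intros
    rfl

theorem LGx.d0_pi (Dx : LGx q n P Qg Lm) (x : P) : Dx.D0.pi (Dx.pr x) = Dx.D.pi x := rfl

theorem LGx.d0_f (Dx : LGx q n P Qg Lm) (i : ℕ) : Dx.D0.f i = (Dx.D.f i).map Dx.pr := rfl

/-- the variables modulo `f (n + 2)` -/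
def v0 (Dx : LGx q n P Qg Lm) (v : Vd n P Qg Lm) : Vd n Dx.Pq Qg Lm :=
  ⟨fun k => Dx.pr (v.g k), v.lam, v.f, fun _ _ => 0⟩

theorem v0_ok {Dx : LGx q n P Qg Lm} {v : Vd n P Qg Lm} (hv : VOx v Dx) : (v0 Dx v).Ok Dx.D0 where
  g k := ⟨_, hv.g k, by simp only [map_mul, map_inv]; rfl⟩
  f := hv.f
  G k x := by
    change ‖(0 : ℂ)‖ ≤ 1
    rw [norm_zero]
    exact zero_le_one
  sup k x h := (h rfl).elim
  eq k u _ x := by
    change (0 : ℂ) = _ * 0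
    rw [mul_zero]

end alg

variable {K : Type} [Field K] [NumberField K] {Ω : Type} [Field Ω] [Algebra K Ω]
  {p : ℕ} {ζ : K} {D : RD0 K p ζ} {q n : ℕ} {J P Qg Lm : Type} [Group P] [Group Qg] [MulAction Qg Lm]
  {A : GS D Ω} {Q : DP K Ω}

/-- the fixed part modulo `f (n + 2)` -/
def r0 (Dx : LGx q n P Qg Lm) (r : Rd A J P Qg) : Rd A J Dx.Pq Qg :=
  ⟨r.T, fun v => Dx.pr (r.lab v), fun i => Dx.pr (r.al i), r.phi, fun _ _ => 0, fun _ _ => 0⟩

theorem r0_ok {Dx : LGx q n P Qg Lm} {r : Rd A J P Qg} {y : Wy D A J} {B : H77.S3.SD D Q A}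
    {jb : Fin A.g → J} (hy : ∀ v ∈ y.Z, v ∉ D.S0) (hr : ROx r y B jb Dx) : (r0 Dx r).Ok y.L Dx.D0 y.Z where
  sub := hr.sub
  out v hv := hy v (hr.sub hv)
  one v hv := by
    change Dx.pr (r.lab v) = 1
    rw [hr.one v hv, map_one]
  hon := hr.hon
  sur := hr.sur
  lab v := hr.lab v
  al i := hr.al i
  G v x := by
    change ‖(0 : ℂ)‖ ≤ 1
    rw [norm_zero]
    exact zero_le_one
  H v x := by
    change ‖(0 : ℂ)‖ ≤ 1
    rw [norm_zero]
    exact zero_le_one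

theorem thq0 (Dx : LGx q n P Qg Lm) (r : Rd A J P Qg) (v : Vd n P Qg Lm) (x : Fin (n + 2) → Pl K) (z : FW A) :
    thq (r0 Dx r) (v0 Dx v) x z = Dx.pr (thq r v x z) := by
  have h1 : thq (r0 Dx r) (v0 Dx v) x = Dx.pr.comp (thq r v x) := by
    refine FreeGroup.ext_hom _ _ fun a => ?_
    rw [MonoidHom.comp_apply]
    unfold H93.BX.thq
    rw [FreeGroup.lift_apply_of, FreeGroup.lift_apply_of]
    rcases a with w | i
    · show lbq x (v0 Dx v).g (r0 Dx r).lab w = Dx.pr (lbq x v.g r.lab w)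
      unfold lbq
      split_ifs <;> rfl
    · rfl
  rw [h1]
  rfl

/-- the values at the fixed primes, on a cell -/
theorem cel0_T (y : Wy D A J) (Dx : LGx q n P Qg Lm) (r : Rd A J P Qg) (v : Vd n P Qg Lm)
    {x x' : Fin (n + 2) → Pl K} (h : cel y Dx.D0 (r0 Dx r) (v0 Dx v) x = cel y Dx.D0 (r0 Dx r) (v0 Dx v) x')
    (w : Pl K) (hw : w ∈ r.T) : thq r v x (y.wv w) * (thq r v x' (y.wv w))⁻¹ ∈ Dx.D.f (n + 2) := by
  have h1 := cel_T y Dx.D0 (r0 Dx r) (v0 Dx v) h w hw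
  rw [thq0, thq0, Dx.pr_eq] at h1
  exact h1

/-- the values at the fixed words, on a cell -/
theorem cel0_J (y : Wy D A J) (Dx : LGx q n P Qg Lm) (r : Rd A J P Qg) (v : Vd n P Qg Lm)
    {x x' : Fin (n + 2) → Pl K} (h : cel y Dx.D0 (r0 Dx r) (v0 Dx v) x = cel y Dx.D0 (r0 Dx r) (v0 Dx v) x')
    (j : J) : thq r v x (y.wj j) * (thq r v x' (y.wj j))⁻¹ ∈ Dx.D.f (n + 2) := by
  have h1 := cel_J y Dx.D0 (r0 Dx r) (v0 Dx v) h j
  rw [thq0, thq0, Dx.pr_eq] at h1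
  exact h1

/-- the values at the variables, on a cell -/
theorem cel0_q (y : Wy D A J) (Dx : LGx q n P Qg Lm) (r : Rd A J P Qg) (v : Vd n P Qg Lm)
    {x x' : Fin (n + 2) → Pl K} (h : cel y Dx.D0 (r0 Dx r) (v0 Dx v) x = cel y Dx.D0 (r0 Dx r) (v0 Dx v) x')
    (k : Fin (n + 2)) : thq r v x (y.wv (x k)) * (thq r v x' (y.wv (x' k)))⁻¹ ∈ Dx.D.f (n + 1) := by
  have h1 := cel_q y Dx.D0 (r0 Dx r) (v0 Dx v) h k
  rw [QuotientGroup.eq, thq0, thq0, ← map_inv, ← map_mul] at h1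
  have h2 := (Dx.pr_mem (by omega : n + 1 ≤ n + 2) _).1 h1
  have h3 := (Dx.D.f (n + 1)).inv_mem h2
  rw [mul_inv_rev, inv_inv] at h3
  exact (fl_normal Dx.D.fl (n + 1)).mem_comm h3

end H93.BY
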