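import Pool.Agent.H93.BY.Quo

/-!
# [H93 BY ASM] the hypotheses of CORE (H62/BM/Cdf) for the data of BLG

`cvx`, `cmx`: the data. `cmx_ok`: (H1) = `clo`, (H2) = `hn` for the data modulo `f (n + 2)`; (H3) = `Phb` (hypothesis).
-/

set_option autoImplicit false

open scoped NumberField
open IsDedekindDomain
open scoped Classical

noncomputable section

namespace H93.BY

open H63.MA H38.BB H38.BG H57.PC H57.BRA H77.WD H77.WE H77.GL H57.AN H35.UB H24.RK H62.BL H93.BX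

variable {K : Type} [Field K] [NumberField K] {Ω : Type} [Field Ω] [Algebra K Ω]
  {p : ℕ} {ζ : K} {D : RD0 K p ζ} {q n : ℕ} {J P Qg Lm : Type} [Group P] [Group Qg] [MulAction Qg Lm]
  {A : GS D Ω} {Q : DP K Ω}

/-- the functional -/
def cvx [Fintype Lm] (Dx : LGx q n P Qg Lm) (v : Vd n P Qg Lm) : H62.BM.Cv q n Qg Lm :=
  ⟨v.lam, v.f 0, Dx.kb (v.lam 0)⟩

/-- a member -/
def cmx [Fintype J] [Fintype Lm] (y : Wy D A J) (Dx : LGx q n P Qg Lm) (r : Rd A J P Qg) (v : Vd n P Qg Lm)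
    (h : Fin (n + 2) → (Fin (n + 2) → Pl K) → ℂ) : H62.BM.Cm K Ω n Qg :=
  ⟨r.T, r.phi, Cel Dx.D0 (r0 Dx r), cel y Dx.D0 (r0 Dx r) (v0 Dx v), Fq y r v, h, fun q1 a =>
    ((‖Fq y r v q1‖ ^ (2 ^ (n + 2)) : ℝ) : ℂ) *
      ep q (Dx.kbp (v.lam 0) (reld Dx.D0 (r0 Dx r) (v0 Dx v) a (Fin.tail q1) (y.wv (q1 0))).c)⟩

/-- the phase of a cube (hypothesis (H3) of CORE) -/
def Phb [Fintype J] [Fintype Lm] (y : Wy D A J) (Dx : LGx q n P Qg Lm) (r : Rd A J P Qg) (v : Vd n P Qg Lm) : Prop :=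
  ∀ q0 q1 : Fin (n + 2) → Pl K, ND r.T q0 q1 → (∀ k, q0 k ∈ y.Z ∧ q1 k ∈ y.Z) → Fq y r v q1 ≠ 0 →
    (∀ e : Fin (n + 2) → Bool, cel y Dx.D0 (r0 Dx r) (v0 Dx v) (vt q0 q1 e) =
      cel y Dx.D0 (r0 Dx r) (v0 Dx v) q1) →
    ∏ e : Fin (n + 2) → Bool, cj e (Fq y r v (vt q0 q1 e)) = ((‖Fq y r v q1‖ ^ (2 ^ (n + 2)) : ℝ) : ℂ) *
      ep q (Dx.kbp (v.lam 0) (reld Dx.D0 (r0 Dx r) (v0 Dx v) (Fin.tail q0) (Fin.tail q1) (y.wv (q1 0))).c -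
        Dx.kbp (v.lam 0) (reld Dx.D0 (r0 Dx r) (v0 Dx v) (Fin.tail q0) (Fin.tail q1) (y.wv (q0 0))).c)

/-- linkedness of the functional `kb` -/
def LGx.Lkb [Fintype Lm] (Dx : LGx q n P Qg Lm) (lam : Fin (n + 2) → Lm) : Prop :=
  ∃ (τ : Equiv.Perm (Fin (n + 1))) (u : Fin (n + 1) → Qg), Dx.kbp (lam 0)
    (br (List.ofFn fun i : Fin (n + 1) => (⟨(τ i).succ, u i • lam (τ i).succ⟩ : Lr (Fin (n + 2)) Lm))) ≠ 0

theorem fqx_le [Fintype J] (y : Wy D A J) {Dx : LGx q n P Qg Lm} {r : Rd A J P Qg} {v : Vd n P Qg Lm}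
    (hG : ∀ w x, ‖r.G w x‖ ≤ 1) (hH : ∀ j x, ‖r.H j x‖ ≤ 1) (hv : VOx v Dx) (x : Fin (n + 2) → Pl K) :
    ‖Fq y r v x‖ ≤ 1 := by
  unfold H93.BX.Fq
  split_ifs
  · rw [norm_mul, norm_mul, norm_prod, norm_prod, norm_prod]
    refine mul_le_one₀ (mul_le_one₀ ?_ (Finset.prod_nonneg fun _ _ => norm_nonneg _) ?_)
      (Finset.prod_nonneg fun _ _ => norm_nonneg _) ?_
    · exact Finset.prod_le_one (fun _ _ => norm_nonneg _) fun w _ => hG w _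
    · exact Finset.prod_le_one (fun _ _ => norm_nonneg _) fun j _ => hH j _
    · exact Finset.prod_le_one (fun _ _ => norm_nonneg _) fun k _ => hv.G k _
  · rw [norm_zero]
    exact zero_le_one

/-- the Frobenius elements of the variables are right if the summand does not vanish -/
theorem fqx_f [Fintype J] (y : Wy D A J) {Dx : LGx q n P Qg Lm} {r : Rd A J P Qg} {v : Vd n P Qg Lm} (hv : VOx v Dx)
    {x : Fin (n + 2) → Pl K} (hF : Fq y r v x ≠ 0) (k : Fin (n + 2)) :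
    Dx.D0.pi (thq (r0 Dx r) (v0 Dx v) x (y.wv (x k))) = v.f k := by
  rw [thq0, Dx.d0_pi]
  refine hv.sup k _ fun h0 => hF ?_
  unfold H93.BX.Fq
  split_ifs
  · rw [Finset.prod_eq_zero (Finset.mem_univ k) h0, mul_zero]
  · rfl

theorem relcx_reld [Fintype J] [Fintype Lm] (y : Wy D A J) (Dx : LGx q n P Qg Lm) (r : Rd A J P Qg)
    (hr : (r0 Dx r).Ok y.L Dx.D0 y.Z) (v : Vd n P Qg Lm) (h : Fin (n + 2) → (Fin (n + 2) → Pl K) → ℂ)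
    (a b : Fin (n + 1) → Pl K) :
    H62.BM.relc (cyy y) (cmx y Dx r v h) (cvx Dx v) a b = reld Dx.D0 (r0 Dx r) (v0 Dx v) a b :=
  relc_reld y Dx.D0 (r0 Dx r) hr (v0 Dx v) h a b

theorem hcx_hd [Fintype J] [Fintype Lm] (y : Wy D A J) (Dx : LGx q n P Qg Lm) (r : Rd A J P Qg)
    (hr : (r0 Dx r).Ok y.L Dx.D0 y.Z) (v : Vd n P Qg Lm) (h : Fin (n + 2) → (Fin (n + 2) → Pl K) → ℂ)
    (a b : Fin (n + 1) → Pl K) (Ψ : Gal(Ω/K) →* UGd q n Qg Lm) :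
    H62.BM.Hc (cyy y) (cmx y Dx r v h) (cvx Dx v) a b Ψ ↔ Hd y Dx.D0 (r0 Dx r) (v0 Dx v) a b Ψ :=
  hc_hd y Dx.D0 (r0 Dx r) hr (v0 Dx v) h a b Ψ

theorem cmx_ok [IsAlgClosure K Ω] [Finite P] [Finite Qg] [Fintype Lm] [Fintype J] (hp : p.Prime) (hp2 : MOne p K)
    (hζ : IsPrimitiveRoot ζ p) {κ N : ℕ} {z : K} (y : Wy D A J) {B : H77.S3.SD D Q A} {jb : Fin A.g → J}
    {Dx : LGx (p ^ κ) n P Qg Lm} (hy : y.Ok Q Dx.Pq Qg Lm κ n N z) (hQ : IsPGroup p Qg) {r : Rd A J P Qg}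
    {v : Vd n P Qg Lm} (hr : ROx r y B jb Dx) (hv : VOx v Dx) (hl : Dx.Lkb v.lam)
    {h : Fin (n + 2) → (Fin (n + 2) → Pl K) → ℂ} (hh : Mis h) (hP : Phb y Dx r v) :
    (cmx y Dx r v h).Ok (cyy y) (cvx Dx v) := by
  have hne : NeZero (p ^ κ) := ⟨pow_ne_zero κ hp.ne_zero⟩
  have hr0 : (r0 Dx r).Ok y.L Dx.D0 y.Z := r0_ok hy.out hr
  have hv0 := v0_ok hv
  refine { sub := hr.sub, unz := hr.hon, lnk := ?_, F := fqx_le y hr.G hr.H hv, F0 := ?_, h := hh.le,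
           hk := hh.upd, B := ?_, fin := cel_fin Dx.D0 (r0 Dx r), cl := ?_, ex := ?_, id := ?_ }
  · obtain ⟨τ, u, hu⟩ := hl
    exact ⟨τ, u, fun i => hr.sur (u i), hu⟩
  · intro q hq
    exact if_neg hq
  · intro q1 a
    change ‖((‖Fq y r v q1‖ ^ (2 ^ (n + 2)) : ℝ) : ℂ) *
      ep (p ^ κ) (Dx.kbp (v.lam 0) (reld Dx.D0 (r0 Dx r) (v0 Dx v) a (Fin.tail q1) (y.wv (q1 0))).c)‖ ≤ 1
    rw [norm_mul, ep_norm, mul_one, Complex.norm_real, Real.norm_of_nonneg (by positivity)]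
    exact pow_le_one₀ (norm_nonneg _) (fqx_le y hr.G hr.H hv q1)
  · intro q0 q1 hq _ _ _ hc
    exact clo y Dx.D0 (r0 Dx r) (v0 Dx v) hr0.one hv0 hq.1 hc
  · intro q0 q1 hq hF hc
    have hf := fqx_f y hv hF
    constructor
    · obtain ⟨Ψ, hΨ⟩ := hd_ex hp hp2 hζ Q y hy hQ hr0 hv0 hq.1 hq.2.1 hc hf
      exact ⟨Ψ, (hcx_hd y Dx r hr0 v h _ _ Ψ).2 hΨ⟩
    · rw [relcx_reld y Dx r hr0]
      exact lc0 y hr0 hv0 hq.1 hc hf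
  · intro q0 q1 hq hF hc
    rw [relcx_reld y Dx r hr0]
    have h1 := hP q0 q1 hq.1 hq.2.1 hF hc
    change ∏ e : Fin (n + 2) → Bool, cj e (Fq y r v (vt q0 q1 e)) = (((‖Fq y r v q1‖ ^ (2 ^ (n + 2)) : ℝ) : ℂ) *
      ep (p ^ κ) (Dx.kbp (v.lam 0) (reld Dx.D0 (r0 Dx r) (v0 Dx v) (Fin.tail q0) (Fin.tail q1) (y.wv (q1 0))).c)) *
      ep (p ^ κ) (-Dx.kbp (v.lam 0) (reld Dx.D0 (r0 Dx r) (v0 Dx v) (Fin.tail q0) (Fin.tail q1) (y.wv (q0 0))).c)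
    rw [h1, sub_eq_add_neg, ep_addo, mul_assoc]

end H93.BY
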